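import Pool.Agent.K3h22.EX.Stm6

/-! Brick TRM of project ET (helper22): a transcendence basis of monomials. -/

set_option autoImplicit false

namespace Pool.Agent.K3h35.ET

open Set

section

variable {K F : Type} [Field K] [Field F] [Algebra K F]

/-- the monomial with exponents `u` in the elements `y` -/
def mon {n : ℕ} (y : Fin n → F) (u : Fin n → ℤ) : F := ∏ j, y j ^ u j

theorem mon_single {n : ℕ} (y : Fin n → F) (j : Fin n) : mon y (Pi.single j 1) = y j := by
  unfold mon
  rw [Finset.prod_eq_single j]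
  · rw [Pi.single_eq_same, zpow_one]
  · intro b _ hb
    rw [Pi.single_eq_of_ne hb, zpow_zero]
  · intro h
    exact absurd (Finset.mem_univ j) h

theorem alg_mon {n : ℕ} (y : Fin n → F) (u : Fin n → ℤ) (S : Subalgebra K F)
    (h : ∀ j, IsAlgebraic S (y j)) : IsAlgebraic S (mon y u) := by
  rw [← Subalgebra.mem_algebraicClosure]
  unfold mon
  refine prod_mem fun j _ => ?_
  rw [Subalgebra.mem_algebraicClosure]
  obtain ⟨k, hk | hk⟩ := (u j).eq_nat_or_neg
  · rw [hk, zpow_natCast]
    exact (h j).pow k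
  · rw [hk, zpow_neg, zpow_natCast]
    exact ((h j).pow k).inv

theorem alg_mono {S T : Set F} (hST : S ⊆ T) {x : F} (h : IsAlgebraic (Algebra.adjoin K S) x) :
    IsAlgebraic (Algebra.adjoin K T) x := by
  have h1 := (AlgebraicIndependent.matroid K F).closure_subset_closure hST
  rw [AlgebraicIndependent.matroid_closure_eq, AlgebraicIndependent.matroid_closure_eq] at h1
  exact (Subalgebra.mem_algebraicClosure _ _).1 (h1 ((Subalgebra.mem_algebraicClosure _ _).2 h))

theorem trm (n d c : ℕ) (y : Fin n → F)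
    (h1 : ∃ B : Finset (Fin n), B.card = d + 1 ∧
      AlgebraicIndependent K (fun b : {i // i ∈ B} => y b))
    (h2 : ∀ B : Finset (Fin n), B.card = d + 2 →
      ¬ AlgebraicIndependent K (fun b : {i // i ∈ B} => y b)) (hc : c ≤ d)
    (m : Fin c → Fin n → ℤ) : ∃ u : Fin (d + 1) → Fin n → ℤ,
    AlgebraicIndependent K (fun i => mon y (u i)) ∧
    (∀ j, IsAlgebraic (Algebra.adjoin K (Set.range fun i => mon y (u i))) (y j)) ∧
    ∀ i, IsAlgebraic (Algebra.adjoin K (Set.range fun i : Fin d => mon y (u i.succ)))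
      (mon y (m i)) := by
  classical
  set M := AlgebraicIndependent.matroid K F with hM
  have hE : ∀ X : Set F, X ⊆ M.E := fun X => Set.subset_univ X
  set X : Set F := Set.range y with hX
  set Z : Set F := Set.range fun i => mon y (m i) with hZ
  -- independent subsets of `X` have at most `d + 1` elements
  have hup : ∀ I : Set F, I ⊆ X → M.Indep I → I.encard ≤ (d + 1 : ℕ) := by
    intro I hIX hI
    by_contra hlt
    have hlt1 : ((d + 2 : ℕ) : ℕ∞) ≤ I.encard := by
      have := Order.add_one_le_of_lt (not_le.1 hlt)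
      exact_mod_cast this
    obtain ⟨I', hI'I, hI'⟩ := Set.exists_subset_encard_eq hlt1
    have hfin : I'.Finite := Set.finite_of_encard_eq_coe hI'
    have hch : ∀ x : I', ∃ j, y j = x := fun x => hIX (hI'I x.2)
    choose g hg using hch
    have hginj : Function.Injective g := by
      intro a b hab
      apply Subtype.ext
      rw [← hg a, ← hg b, hab]
    have := hfin.fintype
    refine h2 (Finset.univ.image g) ?_ ?_
    · rw [Finset.card_image_of_injective _ hginj, Finset.card_univ, ← Nat.card_eq_fintype_card]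
      have h3 := hI'
      rw [Set.encard_eq_coe_toFinset_card, Set.toFinset_card] at h3
      rw [Nat.card_eq_fintype_card]
      exact_mod_cast h3
    · have h4 : AlgebraicIndependent K (fun x : I' => (x : F)) := (hI.subset hI'I)
      -- the map from the image to I'
      let e : {i // i ∈ Finset.univ.image g} → I' := fun b => (Finset.mem_image.1 b.2).choose
      have he : ∀ b, g (e b) = b := fun b => (Finset.mem_image.1 b.2).choose_spec.2
      have heinj : Function.Injective e := by
        intro a b hab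
        apply Subtype.ext
        rw [← he a, ← he b, hab]
      have h5 := h4.comp e heinj
      have e1 : ((fun x : I' => (x : F)) ∘ e) =
          fun b : {i // i ∈ Finset.univ.image g} => y b.1 := by
        funext b
        show ((e b : I') : F) = y b
        rw [← hg (e b), he b]
      rw [e1] at h5
      exact h5
  -- a basis of `X` has `d + 1` elements
  obtain ⟨B, hBc, hB⟩ := h1
  have hIB : M.Indep (Set.range fun b : {i // i ∈ B} => y b) := hB.to_subtype_range
  have hBX : (Set.range fun b : {i // i ∈ B} => y b) ⊆ X := by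
    rintro _ ⟨b, rfl⟩
    exact ⟨b, rfl⟩
  obtain ⟨J0, hJ0, hBJ0⟩ := hIB.subset_isBasis_of_subset hBX (hE X)
  have hcard0 : J0.encard = (d + 1 : ℕ) := by
    apply le_antisymm (hup J0 hJ0.subset hJ0.indep)
    calc ((d + 1 : ℕ) : ℕ∞) = (Set.range fun b : {i // i ∈ B} => y b).encard := by
          rw [← Set.image_univ, hB.injective.encard_image, Set.encard_univ]
          simp [hBc]
      _ ≤ J0.encard := Set.encard_le_encard hBJ0
  -- it is a basis of `X ∪ Z`
  have hZcl : Z ⊆ M.closure X := by
    rintro _ ⟨i, rfl⟩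
    rw [hM, AlgebraicIndependent.matroid_closure_eq]
    refine (Subalgebra.mem_algebraicClosure _ _).2 (alg_mon y (m i) _ fun j => ?_)
    exact isAlgebraic_algebraMap (⟨y j, Algebra.subset_adjoin ⟨j, rfl⟩⟩ : Algebra.adjoin K X)
  have hJ0' : M.IsBasis J0 (X ∪ Z) :=
    hJ0.isBasis_closure_right.isBasis_subset (hJ0.subset.trans Set.subset_union_left)
      (Set.union_subset (M.subset_closure X (hE X)) hZcl)
  -- a basis of `Z`, extended
  obtain ⟨J, hJ⟩ := M.exists_isBasis Z (hE Z)
  obtain ⟨J', hJ', hJJ'⟩ := hJ.indep.subset_isBasis_of_subset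
    (hJ.subset.trans Set.subset_union_right : J ⊆ X ∪ Z) (hE _)
  have hcard : J'.encard = (d + 1 : ℕ) := by
    rw [← hcard0]; exact hJ'.encard_eq_encard hJ0'
  have hJ'fin : J'.Finite := Set.finite_of_encard_eq_coe hcard
  have hJcard : J.encard ≤ (d : ℕ) := by
    calc J.encard ≤ Z.encard := Set.encard_le_encard hJ.subset
      _ ≤ (c : ℕ) := by
          rw [hZ, ← Set.image_univ]
          refine (Set.encard_image_le _ _).trans ?_
          rw [Set.encard_univ]; simp
      _ ≤ (d : ℕ) := by exact_mod_cast hc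
  -- an element of `J'` outside `J`
  obtain ⟨x0, hx0', hx0⟩ : ∃ x ∈ J', x ∉ J := by
    by_contra hno
    push Not at hno
    have h3 : J'.encard ≤ J.encard := Set.encard_le_encard hno
    rw [hcard] at h3
    have h4 := h3.trans hJcard
    have h5 : d + 1 ≤ d := by exact_mod_cast h4
    omega
  -- exponents
  have hexp : ∀ x ∈ X ∪ Z, ∃ u : Fin n → ℤ, mon y u = x := by
    rintro x (⟨j, rfl⟩ | ⟨i, rfl⟩)
    · exact ⟨Pi.single j 1, mon_single y j⟩
    · exact ⟨m i, rfl⟩
  -- enumerate `J' \ {x0}`
  have hcard1 : (J' \ {x0}).encard = (d : ℕ) := by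
    rw [Set.encard_sdiff_singleton_of_mem hx0', hcard]
    norm_cast
  have hfin1 : (J' \ {x0}).Finite := hJ'fin.subset Set.sdiff_subset
  have hft := hfin1.fintype
  have hcd : Fintype.card ↥(J' \ {x0}) = d := by
    have h3 := hcard1
    rw [Set.encard_eq_coe_toFinset_card, Set.toFinset_card] at h3
    exact_mod_cast h3
  let φ : Fin d ≃ ↥(J' \ {x0}) := (Fintype.equivFinOfCardEq hcd).symm
  let v : Fin (d + 1) → F := Fin.cons x0 fun i => (φ i : F)
  have hv : ∀ i, v i ∈ J' := by
    intro i
    refine Fin.cases ?_ (fun k => ?_) i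
    · exact hx0'
    · exact (φ k).2.1
  have hvinj : Function.Injective v := by
    rw [Fin.cons_injective_iff]
    refine ⟨?_, fun a b hab => φ.injective (Subtype.ext hab)⟩
    rintro ⟨a, ha⟩
    exact (φ a).2.2 ha
  have hvrange : J' ⊆ Set.range v := by
    intro x hx
    by_cases hxx : x = x0
    · exact ⟨0, hxx.symm⟩
    · refine ⟨(φ.symm ⟨x, hx, hxx⟩).succ, ?_⟩
      show ((φ (φ.symm ⟨x, hx, hxx⟩) : ↥(J' \ {x0})) : F) = x
      rw [Equiv.apply_symm_apply]
  have hch : ∀ i, ∃ u : Fin n → ℤ, mon y u = v i := fun i => hexp (v i) (hJ'.subset (hv i))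
  choose u hu using hch
  have hrange : (Set.range fun i => mon y (u i)) = Set.range v := by
    congr 1
    funext i
    exact hu i
  have hrange' : (Set.range fun i : Fin d => mon y (u i.succ)) = Set.range fun i : Fin d => v i.succ := by
    congr 1
    funext i
    exact hu i.succ
  have hJ'alg : ∀ x ∈ X ∪ Z, IsAlgebraic (Algebra.adjoin K J') x :=
    (AlgebraicIndependent.matroid_isBasis_iff.1 hJ').2.2
  have hJalg : ∀ x ∈ Z, IsAlgebraic (Algebra.adjoin K J) x :=
    (AlgebraicIndependent.matroid_isBasis_iff.1 hJ).2.2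
  refine ⟨u, ?_, fun j => ?_, fun i => ?_⟩
  · have h4 : AlgebraicIndependent K (fun x : J' => (x : F)) := hJ'.indep
    have h5 := h4.comp (fun i => (⟨v i, hv i⟩ : J')) fun a b hab => hvinj (congrArg Subtype.val hab)
    have e1 : ((fun x : J' => (x : F)) ∘ fun i => (⟨v i, hv i⟩ : J')) = fun i => mon y (u i) := by
      funext i
      exact (hu i).symm
    rw [e1] at h5
    exact h5
  · rw [hrange]
    exact alg_mono hvrange (hJ'alg (y j) (Or.inl ⟨j, rfl⟩))
  · rw [hrange']
    refine alg_mono ?_ (hJalg (mon y (m i)) ⟨i, rfl⟩)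
    intro x hx
    have hxx : x ≠ x0 := fun h => hx0 (h ▸ hx)
    refine ⟨φ.symm ⟨x, hJJ' hx, hxx⟩, ?_⟩
    show ((φ (φ.symm ⟨x, hJJ' hx, hxx⟩) : ↥(J' \ {x0})) : F) = x
    rw [Equiv.apply_symm_apply]

end

theorem t_TRM : Pool.Agent.K3h22.EX.S_TRM := by
  intro K F _ _ _ n d c y _ h1 h2 hc m
  exact trm n d c y h1 h2 hc m

end Pool.Agent.K3h35.ET
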